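import Mathlib
import Pool.Agent.H57.Code.Lp
import Pool.Agent.H64.Pent.Final

set_option autoImplicit false

/-!
An even subgraph of a permutation graph whose word is `z` at one matching edge, has a letter at exactly
two matching edges and has no own matching edge is a circuit of length five (MP_a46c6f_co).
-/

namespace Pool.Agent.H19.Q

open SimpleGraph Pool.Agent.H5.Goddyn Pool.Agent.H98.TC Pool.Agent.H64.Pent Pool.Agent.H98.Code
open Pool.Agent.H57.Code

/-- an even subgraph `(a, b)` without own edges, with the word `z` at `g` and letters at `l`, `l'` -/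
def Three {n : ℕ} (p : Equiv.Perm (ZMod n)) : Prop :=
  ∃ a b : ZMod n → ZMod 2, ∃ g l l' : ZMod n, Ev p a b ∧ word p a b g = z ∧ l ≠ l' ∧
    (word p a b l).1 = 1 ∧ (word p a b l').1 = 1 ∧
    (∀ i, i ≠ g → i ≠ l → i ≠ l' → word p a b i = 0) ∧ (∀ i, word p a b i = 0 → a i = 0)

lemma z2 : ∀ c : ZMod 2, c = 0 ∨ c = 1 := by decide

lemma sub_one_ne {n : ℕ} (hn : 3 ≤ n) (g : ZMod n) : g - 1 ≠ g := by
  intro h
  have h1 : (1 : ZMod n) = 0 := by linear_combination -h
  have : Fact (1 < n) := ⟨by omega⟩
  exact one_ne_zero h1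

lemma add_one_ne {n : ℕ} (hn : 3 ≤ n) (g : ZMod n) : g + 1 ≠ g := by
  intro h
  have h1 : (1 : ZMod n) = 0 := by linear_combination h
  have : Fact (1 < n) := ⟨by omega⟩
  exact one_ne_zero h1

lemma sub_ne_add {n : ℕ} (hn : 3 ≤ n) (g : ZMod n) : g - 1 ≠ g + 1 := by
  intro h
  have h1 : ((2 : ℕ) : ZMod n) = 0 := by push_cast; linear_combination -h
  rw [ZMod.natCast_eq_zero_iff] at h1
  have := Nat.le_of_dvd (by norm_num) h1
  omega

section
variable {n : ℕ} {p : Equiv.Perm (ZMod n)} {a b : ZMod n → ZMod 2} {g l l' : ZMod n}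

lemma not_one : (1 : ZMod 2) ≠ 0 := by decide

lemma zero_all (hE : Ev p a b) (h0 : ∀ i, word p a b i = 0 → a i = 0) {i : ZMod n}
    (hi : word p a b i = 0) : a (i - 1) = 0 ∧ a i = 0 ∧ b (p i - 1) = 0 ∧ b (p i) = 0 := by
  have h1 := h0 i hi
  have h2 : a (i - 1) + a i = 0 := congrArg Prod.fst hi
  have h3 : a i + b (p i) = 0 := congrArg Prod.snd hi
  have h4 := hE i
  rw [h1, add_zero] at h2
  rw [h1, zero_add] at h3
  rw [h1, h2, h3, add_zero, add_zero] at h4
  exact ⟨h2, h1, h4.symm, h3⟩

/-- where an edge of the subgraph ends there is a letter -/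
lemma mem_of {i : ZMod n} (hE : Ev p a b) (h0 : ∀ i, word p a b i = 0 → a i = 0)
    (hz : ∀ i, i ≠ g → i ≠ l → i ≠ l' → word p a b i = 0) (hg : i ≠ g)
    (h : a (i - 1) = 1 ∨ a i = 1 ∨ b (p i - 1) = 1 ∨ b (p i) = 1) : i = l ∨ i = l' := by
  by_contra hcon
  push Not at hcon
  obtain ⟨h1, h2, h3, h4⟩ := zero_all hE h0 (hz i hg hcon.1 hcon.2)
  rcases h with h | h | h | h
  · exact not_one (h.symm.trans h1)
  · exact not_one (h.symm.trans h2)
  · exact not_one (h.symm.trans h3)
  · exact not_one (h.symm.trans h4)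

lemma one_of {c d : ZMod 2} (h : c + d = 1) (hc : c = 0) : d = 1 := by
  rw [hc, zero_add] at h
  exact h

lemma zero_of {c d : ZMod 2} (h : c + d = 1) (hc : c = 1) : d = 0 := by
  revert c d
  decide

/-- the case in which the subgraph contains the edges of `C₁` at `g` -/
theorem case_one (hn : 3 ≤ n) (hE : Ev p a b) (h0 : ∀ i, word p a b i = 0 → a i = 0)
    (hz : ∀ i, i ≠ g → i ≠ l → i ≠ l' → word p a b i = 0)
    (hl : (word p a b (g + 1)).1 = 1) (a1 : a (g - 1) = 1) (a2 : a g = 1) (b1 : b (p g - 1) = 0)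
    (b2 : b (p g) = 0) (e1 : l = g + 1) (e2 : l' = g - 1) :
    p (g - 1 + 2) = p (g - 1) + 1 ∨ p (g - 1 + 2) = p (g - 1) - 1 := by
  have hgg : g - 1 + 2 = g + 1 := by ring
  rw [hgg]
  have h1 : a g + a (g + 1) = 1 := by
    have : (word p a b (g + 1)).1 = a (g + 1 - 1) + a (g + 1) := rfl
    rw [this, add_sub_cancel_right] at hl
    exact hl
  have h2 := hE (g + 1)
  rw [add_sub_cancel_right, h1] at h2
  rcases z2 (b (p (g + 1))) with h3 | h3
  · have h4 : b (p (g + 1) - 1) = 1 := by
      rw [h3, add_zero] at h2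
      exact h2.symm
    have h5 : p (p.symm (p (g + 1) - 1)) = p (g + 1) - 1 := Equiv.apply_symm_apply _ _
    have hm : p.symm (p (g + 1) - 1) = l ∨ p.symm (p (g + 1) - 1) = l' := by
      apply mem_of (g := g) hE h0 hz
      · intro hh
        rw [hh] at h5
        rw [← h5, b2] at h4
        exact not_one h4.symm
      · right; right; right
        rw [h5]
        exact h4
    rcases hm with hm | hm
    · rw [hm, e1] at h5
      exact absurd h5.symm (sub_one_ne hn _)
    · left
      rw [hm, e2] at h5
      rw [h5, sub_add_cancel]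
  · have h5 : p (p.symm (p (g + 1) + 1)) = p (g + 1) + 1 := Equiv.apply_symm_apply _ _
    have hm : p.symm (p (g + 1) + 1) = l ∨ p.symm (p (g + 1) + 1) = l' := by
      apply mem_of (g := g) hE h0 hz
      · intro hh
        rw [hh] at h5
        rw [h5, add_sub_cancel_right, h3] at b1
        exact not_one b1
      · right; right; left
        rw [h5, add_sub_cancel_right]
        exact h3
    rcases hm with hm | hm
    · rw [hm, e1] at h5
      exact absurd h5.symm (add_one_ne hn _)
    · right
      rw [hm, e2] at h5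
      rw [h5, add_sub_cancel_right]

/-- the case in which the subgraph contains the edges of `C₂` at `g` -/
theorem case_two (hn : 3 ≤ n) (hE : Ev p a b) (h0 : ∀ i, word p a b i = 0 → a i = 0)
    (hz : ∀ i, i ≠ g → i ≠ l → i ≠ l' → word p a b i = 0)
    (hl : (word p a b l).1 = 1) (a1 : a (g - 1) = 0) (a2 : a g = 0)
    (e1 : l = p.symm (p g + 1)) (e2 : l' = p.symm (p g - 1)) :
    p.symm (p g - 1 + 2) = p.symm (p g - 1) + 1 ∨ p.symm (p g - 1 + 2) = p.symm (p g - 1) - 1 := by
  have hgg : p g - 1 + 2 = p g + 1 := by ring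
  rw [hgg, ← e1, ← e2]
  have h1 : a (l - 1) + a l = 1 := hl
  rcases z2 (a l) with h3 | h3
  · have h4 : a (l - 1) = 1 := by rw [h3, add_zero] at h1; exact h1
    have hm : l - 1 = l ∨ l - 1 = l' := by
      apply mem_of (g := g) hE h0 hz
      · intro hh
        rw [hh, a2] at h4
        exact not_one h4.symm
      · right; left
        exact h4
    rcases hm with hm | hm
    · exact absurd hm (sub_one_ne hn _)
    · left
      rw [← hm, sub_add_cancel]
  · have hm : l + 1 = l ∨ l + 1 = l' := by
      apply mem_of (g := g) hE h0 hz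
      · intro hh
        rw [← hh, add_sub_cancel_right, h3] at a1
        exact not_one a1
      · left
        rw [add_sub_cancel_right]
        exact h3
    rcases hm with hm | hm
    · exact absurd hm (add_one_ne hn _)
    · right
      rw [← hm, add_sub_cancel_right]

end

/-- the five-circuit -/
theorem five_of_three {n : ℕ} (hn : 3 ≤ n) (p : Equiv.Perm (ZMod n)) (h : Three p) :
    (∃ f, p (f + 2) = p f + 1 ∨ p (f + 2) = p f - 1) ∨
      (∃ f, p.symm (f + 2) = p.symm f + 1 ∨ p.symm (f + 2) = p.symm f - 1) := by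
  obtain ⟨a, b, g, l, l', hE, hg, hll, hl, hl', hz, h0⟩ := h
  have g1 : a (g - 1) + a g = 0 := congrArg Prod.fst hg
  have g2 : a g + b (p g) = 1 := congrArg Prod.snd hg
  have g3 := hE g
  rcases z2 (a g) with ha | ha
  · -- edges of `C₂`
    have a1 : a (g - 1) = 0 := by rw [ha, add_zero] at g1; exact g1
    have b2 : b (p g) = 1 := one_of g2 ha
    have b1 : b (p g - 1) = 1 := by
      rw [ha, a1, b2, add_zero] at g3
      have h4 : b (p g - 1) + 1 = 0 := g3.symm
      revert h4
      generalize b (p g - 1) = c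
      revert c
      decide
    right
    have q1 : p (p.symm (p g + 1)) = p g + 1 := Equiv.apply_symm_apply _ _
    have q2 : p (p.symm (p g - 1)) = p g - 1 := Equiv.apply_symm_apply _ _
    have m1 : p.symm (p g + 1) = l ∨ p.symm (p g + 1) = l' := by
      apply mem_of (g := g) hE h0 hz
      · intro hh
        rw [hh] at q1
        exact add_one_ne hn _ q1.symm
      · right; right; left
        rw [q1, add_sub_cancel_right]
        exact b2
    have m2 : p.symm (p g - 1) = l ∨ p.symm (p g - 1) = l' := by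
      apply mem_of (g := g) hE h0 hz
      · intro hh
        rw [hh] at q2
        exact sub_one_ne hn _ q2.symm
      · right; right; right
        rw [q2]
        exact b1
    have hd : p.symm (p g + 1) ≠ p.symm (p g - 1) := by
      intro hh
      exact sub_ne_add hn _ (p.symm.injective hh).symm
    rcases m1 with m1 | m1
    · have m3 : p.symm (p g - 1) = l' := by
        rcases m2 with m2 | m2
        · exact absurd (m1.trans m2.symm) hd
        · exact m2
      exact ⟨p g - 1, case_two hn hE h0 hz hl a1 ha m1.symm m3.symm⟩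
    · have m3 : p.symm (p g - 1) = l := by
        rcases m2 with m2 | m2
        · exact m2
        · exact absurd (m1.trans m2.symm) hd
      exact ⟨p g - 1, case_two hn hE h0 (fun i h1 h2 h3 => hz i h1 h3 h2) hl' a1 ha m1.symm
        m3.symm⟩
  · have a1 : a (g - 1) = 1 := by
      rw [ha] at g1
      revert g1
      generalize a (g - 1) = c
      revert c
      decide
    have b2 : b (p g) = 0 := zero_of g2 ha
    have b1 : b (p g - 1) = 0 := by
      rw [ha, a1, b2, add_zero] at g3
      rw [← g3]
      decide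
    left
    have m1 : g + 1 = l ∨ g + 1 = l' := by
      apply mem_of (g := g) hE h0 hz (add_one_ne hn g)
      left
      rw [add_sub_cancel_right]
      exact ha
    have m2 : g - 1 = l ∨ g - 1 = l' := by
      apply mem_of (g := g) hE h0 hz (sub_one_ne hn g)
      right; left
      exact a1
    have hd := sub_ne_add hn g
    rcases m1 with m1 | m1
    · have m3 : g - 1 = l' := by
        rcases m2 with m2 | m2
        · exact absurd (m2.trans m1.symm) hd
        · exact m2
      exact ⟨g - 1, case_one hn hE h0 hz (m1 ▸ hl) a1 ha b1 b2 m1.symm m3.symm⟩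
    · have m3 : g - 1 = l := by
        rcases m2 with m2 | m2
        · exact m2
        · exact absurd (m2.trans m1.symm) hd
      exact ⟨g - 1, case_one hn hE h0 (fun i h1 h2 h3 => hz i h1 h3 h2) (m1 ▸ hl') a1 ha b1 b2
        m1.symm m3.symm⟩

/-- **the Petersen pair from a three letter word without own edges** -/
theorem petersen_of_three {V : Type*} [Finite V] (G : SimpleGraph V) (M C₁ C₂ : G.Subgraph)
    (h : IsPermutationGraph G M C₁ C₂) (hrem : ∀ C : G.Subgraph, ¬ Removable G (wt M) C) {n : ℕ}
    (hn : 3 ≤ n) (x y : ZMod n → V) (p : Equiv.Perm (ZMod n)) (hx : Numb C₁ x) (hy : Numb C₂ y)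
    (hM : ∀ i, M.Adj (x i) (y (p i))) (h3 : Three p) : IsPetersenPair G M := by
  rcases five_of_three hn p h3 with h1 | h1
  · exact fin_both G M C₁ C₂ h hrem hn x y p hx hy hM h1
  · refine fin_both G M C₂ C₁ (swap' h) hrem hn y x p.symm hy hx (fun j => ?_) h1
    have h2 := (hM (p.symm j)).symm
    rwa [Equiv.apply_symm_apply] at h2

end Pool.Agent.H19.Q
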